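import Pool.Agent.H.MP_82af14_an.B

open Set Metric RealInnerProductSpace Pool.Agent.H.MP_82af14_an

namespace Pool.Agent.Results.MP_82af14_an.Killing

theorem result : SimplyConnectedSpace (sphere (0 : E) 1) ∧ ∃ L : E → E → ℝ,
    ContDiff ℝ ⊤ (Function.uncurry L) ∧
    (∀ x v w, w ≠ 0 → 0 < fderiv ℝ (fderiv ℝ (L x)) v w w) ∧
    (∀ K : ℝ, ∃ M : ℝ, ∀ x v, ‖x‖ = 1 → M ≤ ‖v‖ → K ≤ L x v / ‖v‖) ∧
    ∃ c h : ℝ, IsLeast (Crit L) c ∧ h < c ∧
      ∃ x, ‖x‖ = 1 ∧ ∀ y, ‖y‖ = 1 → Joins L h x y := by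
  refine ⟨sc, LL, ?_, fun x v w hw => ?_, fun K => ⟨max 1 (2 * ‖W‖ + 2 * K), fun x v hx hv => ?_⟩,
    0, -1 / 32, crit ▸ isLeast_Ici, by norm_num, x0, x0_norm, fun y => reach⟩
  · exact ((contDiff_snd.sub (W.contDiff.comp contDiff_fst)).norm_sq ℝ).div_const 2
  · have h : fderiv ℝ (LL x) = fun v => innerSL ℝ (v - W x) := funext fun v => (LL_v x v).fderiv
    have h1 : HasFDerivAt (fun v => innerSL ℝ (v - W x)) _ v :=
      (innerSL ℝ : E →L[ℝ] E →L[ℝ] ℝ).hasFDerivAt.comp v ((hasFDerivAt_id v).sub_const (W x))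
    rw [h, h1.fderiv]
    exact real_inner_self_pos.2 hw
  · have h1 := (le_max_left _ _).trans hv
    have h2 := (le_max_right _ _).trans hv
    have h3 : ‖W x‖ ≤ ‖W‖ := by simpa [hx] using W.le_opNorm x
    have h4 := (real_inner_le_norm v (W x)).trans (mul_le_mul_of_nonneg_left h3 (norm_nonneg v))
    rw [le_div_iff₀ (by linarith), LL, norm_sub_sq_real]
    nlinarith [sq_nonneg ‖W x‖]

end Pool.Agent.Results.MP_82af14_an.Killing
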